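import Pool.Agent.K6.H8.NB.Height

/-!
# The growth of the Kashaev invariant at almost all Galois conjugates

The volume conjecture says that the `N`-coloured Jones polynomial of a hyperbolic knot grows
exponentially with `N` at `q = exp (2 π i / N)`, at the rate `vol / 2 π`.  Here we consider its
values at all primitive `N`-th roots of unity `q = exp (2 π i a / N)`, the Galois conjugates of the
Kashaev invariant (the function of `a / N` in Zagier's modularity conjecture).  We prove, for every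
knot, that the numbers of conjugates which are exponentially large, or exponentially small, are
`O((log N)^2)`: for most `a` the logarithm of the absolute value is `O((log N)^2)`.

The coloured Jones polynomials are defined from the R-matrix of `U_q(sl_2)`, for closed braids.
-/

set_option autoImplicit false

namespace Pool.Agent.K6.H8.Var.ConjugateGrowth

open Finset

/-! ### The coloured Jones polynomial -/

/-- `{n} = v^n - v^{-n}` -/
noncomputable def br (v : ℂ) (n : ℤ) : ℂ := v ^ n - v ^ (-n)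

/-- `{n}! = {1} {2} ⋯ {n}` -/
noncomputable def brf (v : ℂ) (n : ℕ) : ℂ := ∏ j ∈ range n, br v ((j : ℤ) + 1)

/-- The positive crossing: the R-matrix of `U_q(sl_2)` on `V_N ⊗ V_N`, `V_N` with basis
`e_0, …, e_{N-1}`, times the framing factor `v^{-(N^2-1)/2}`; `crossP N v p q` is the coefficient
of `e_{p.1} ⊗ e_{p.2}` in the image of `e_{q.1} ⊗ e_{q.2}`:
`e_i ⊗ e_j ↦ ∑_n v^{-(N-1)(1+i+j) + 2(i-n)(j+n) + n(n-1)/2}
({j+n}! / ({j}! {n}!)) ∏_{t<n} {N-i+t} e_{j+n} ⊗ e_{i-n}`. -/
noncomputable def crossP (N : ℕ) (v : ℂ) : Matrix (Fin N × Fin N) (Fin N × Fin N) ℂ :=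
  fun p q => if (p.1 : ℕ) + p.2 = q.1 + q.2 ∧ (q.2 : ℕ) ≤ p.1 then
    v ^ (-((N : ℤ) - 1) * (1 + (q.1 : ℕ) + (q.2 : ℕ)) + 2 * (p.1 : ℕ) * (p.2 : ℕ)) *
      v ^ (((p.1 : ℕ) - q.2) * ((p.1 : ℕ) - q.2 - 1) / 2) *
      (brf v p.1 / (brf v q.2 * brf v ((p.1 : ℕ) - q.2))) *
      ∏ t ∈ range ((p.1 : ℕ) - q.2), br v ((N : ℤ) - (q.1 : ℕ) + t)
    else 0

/-- The negative crossing, inverse of `crossP N v`:
`e_i ⊗ e_j ↦ ∑_n (-1)^n v^{(N-1)(1+i+j) - 2ij - n(n-1)/2}
({i+n}! / ({i}! {n}!)) ∏_{t<n} {N-j+t} e_{j-n} ⊗ e_{i+n}`. -/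
noncomputable def crossN (N : ℕ) (v : ℂ) : Matrix (Fin N × Fin N) (Fin N × Fin N) ℂ :=
  fun p q => if (p.1 : ℕ) + p.2 = q.1 + q.2 ∧ (q.1 : ℕ) ≤ p.2 then
    (-1) ^ ((p.2 : ℕ) - q.1) *
      v ^ (((N : ℤ) - 1) * (1 + (q.1 : ℕ) + (q.2 : ℕ)) - 2 * (q.1 : ℕ) * (q.2 : ℕ)) /
      v ^ (((p.2 : ℕ) - q.1) * ((p.2 : ℕ) - q.1 - 1) / 2) *
      (brf v p.2 / (brf v q.1 * brf v ((p.2 : ℕ) - q.1))) *
      ∏ t ∈ range ((p.2 : ℕ) - q.1), br v ((N : ℤ) - (q.2 : ℕ) + t)
    else 0

/-- The braid generator `s_k` on `n` strands (it acts on the strands number `k` and `k + 1`,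
counted from `0`) by the crossing matrix `A`. -/
def gen {ι : Type} [DecidableEq ι] (A : Matrix (ι × ι) (ι × ι) ℂ) (n k : ℕ) :
    Matrix (Fin n → ι) (Fin n → ι) ℂ :=
  fun s t => if h : k + 1 < n then
    (if ∀ j : Fin n, (j : ℕ) ≠ k → (j : ℕ) ≠ k + 1 → s j = t j then
      A (s ⟨k, by omega⟩, s ⟨k + 1, h⟩) (t ⟨k, by omega⟩, t ⟨k + 1, h⟩) else 0)
    else (if s = t then 1 else 0)

/-- The operator of a braid word on `n` strands: the letter `(k, true)` is `s_k`, the letter
`(k, false)` is its inverse; `P` and `Q` are the matrices of the two crossings. -/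
def rep {ι : Type} [Fintype ι] [DecidableEq ι] (P Q : Matrix (ι × ι) (ι × ι) ℂ) (n : ℕ)
    (w : List (ℕ × Bool)) : Matrix (Fin n → ι) (Fin n → ι) ℂ :=
  (w.map fun g => gen (if g.2 then P else Q) n g.1).prod

/-- The partial trace over all strands but the first one, with weights `k`; `n + 1` strands. -/
def tail {ι : Type} [Fintype ι] (k : ι → ℂ) (n : ℕ)
    (A : Matrix (Fin (n + 1) → ι) (Fin (n + 1) → ι) ℂ) : Matrix ι ι ℂ :=
  fun i j => ∑ s : Fin n → ι, (∏ x, k (s x)) * A (Fin.cons i s) (Fin.cons j s)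

/-- The `N`-coloured Jones polynomial (unknot `= 1`) of the closure of the braid word `w` on
`n + 1` strands, at `q = v^2`: the entry at the highest weight vector `e_0` of the partial quantum
trace, with the weights `v^{N-1-2x}` of `K`. -/
noncomputable def cjones (N n : ℕ) (w : List (ℕ × Bool)) (v : ℂ) : ℂ :=
  if h : 0 < N then
    tail (fun x : Fin N => v ^ ((N : ℤ) - 1 - 2 * (x : ℕ))) n
      (rep (crossP N v) (crossN N v) (n + 1) w) ⟨0, h⟩ ⟨0, h⟩ else 0

/-! ### Knots and roots of unity -/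

/-- The permutation of a generator on `n` strands. -/
def sig (n k : ℕ) : Equiv.Perm (Fin n) :=
  if h : k + 1 < n then Equiv.swap ⟨k, by omega⟩ ⟨k + 1, h⟩ else 1

/-- The permutation of a braid word on `n` strands. -/
def perm (n : ℕ) (w : List (ℕ × Bool)) : Equiv.Perm (Fin n) :=
  (w.map fun g => sig n g.1).prod

/-- The closure of the braid word `w` on `n + 1` strands is a knot: the permutation of the strands
is transitive. -/
def IsKnot (n : ℕ) (w : List (ℕ × Bool)) : Prop :=
  ∀ x : Fin (n + 1), ∃ k : ℕ, (perm (n + 1) w ^ k) 0 = x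

/-- `v = exp (π i a / N)`, so that `q = v^2 = exp (2 π i a / N)`. -/
noncomputable def root (N a : ℕ) : ℂ := Complex.exp (Real.pi * Complex.I * a / N)

/-- The Kashaev invariant of the closure of the braid word `w` on `n + 1` strands: the value of the
`N`-coloured Jones polynomial at `q = exp (2 π i / N)`. -/
noncomputable def kashaev (n : ℕ) (w : List (ℕ × Bool)) (N : ℕ) : ℂ := cjones N n w (root N 1)

/-! ### The bridge to the library -/

/-- The numbers `1 ≤ a < 2 N` coprime to `2 N`. -/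
def units (N : ℕ) : Finset ℕ := (range (2 * N)).filter fun a => Nat.Coprime a (2 * N)

section Bridge

open Pool.Agent.K6.H8

lemma pw_eq (u : ℂˣ) (n : ℤ) : NB.pw u n = (u : ℂ) ^ n := by
  unfold NB.pw
  rw [Units.val_zpow_eq_zpow_val]

lemma br_eq (u : ℂˣ) (n : ℤ) : NB.brR u n = br (u : ℂ) n := by
  unfold NB.brR br
  rw [pw_eq, pw_eq]

lemma brf_eq (u : ℂˣ) (n : ℕ) : NB.brfR u n = brf (u : ℂ) n := by
  unfold NB.brfR brf
  exact prod_congr rfl fun j _ => br_eq u _

variable {N a : ℕ}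

lemma qb_eq {D : ℝ} {u : ℂˣ} (hu : NB.Good N u D) (m k : ℕ) (hm : m < N) (hk : k ≤ m) :
    NB.qb u m k = brf (u : ℂ) m / (brf (u : ℂ) k * brf (u : ℂ) (m - k)) := by
  have h1 := NB.qb_mul u m k hk
  have h2 : brf (u : ℂ) k ≠ 0 := by
    rw [← brf_eq]; exact norm_pos_iff.1 (hu.pos k (by omega))
  have h3 : brf (u : ℂ) (m - k) ≠ 0 := by
    rw [← brf_eq]; exact norm_pos_iff.1 (hu.pos (m - k) (by omega))
  rw [brf_eq, brf_eq, brf_eq] at h1
  rw [eq_div_iff (mul_ne_zero h2 h3)]
  exact h1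

lemma crossP_eq {D : ℝ} {u : ℂˣ} (hu : NB.Good N u D) : crossP N (u : ℂ) = NB.crossPR N u := by
  ext p q
  unfold crossP NB.crossPR
  split_ifs with h
  · rw [qb_eq hu p.1 q.2 p.1.2 h.2, pw_eq, pw_eq, zpow_natCast]
    congr 1
    exact prod_congr rfl fun t _ => (br_eq u _).symm
  · rfl

lemma crossN_eq {D : ℝ} {u : ℂˣ} (hu : NB.Good N u D) : crossN N (u : ℂ) = NB.crossNR N u := by
  ext p q
  unfold crossN NB.crossNR
  split_ifs with h
  · rw [qb_eq hu p.2 q.1 p.2.2 h.2, pw_eq, pw_eq, zpow_neg, zpow_natCast, ← div_eq_mul_inv]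
    congr 1
    exact prod_congr rfl fun t _ => (br_eq u _).symm
  · rfl

lemma gen_eq {ι : Type} [DecidableEq ι] (A : Matrix (ι × ι) (ι × ι) ℂ) (n k : ℕ) :
    gen A n k = NB.gen A n k := rfl

lemma cjones_eq {D : ℝ} {u : ℂˣ} (hu : NB.Good N u D) (n : ℕ) (w : List (ℕ × Bool)) :
    cjones N n w (u : ℂ) = NB.cjR N n w u := by
  unfold cjones NB.cjR
  split_ifs with h
  · rw [crossP_eq hu, crossN_eq hu]
    have e : (fun x : Fin N => (u : ℂ) ^ ((N : ℤ) - 1 - 2 * (x : ℕ))) =
        fun x : Fin N => NB.pw u ((N : ℤ) - 1 - 2 * (x : ℕ)) := by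
      funext x; rw [pw_eq]
    rw [e]
    rfl
  · rfl

lemma value_eq (n : ℕ) (w : List (ℕ × Bool)) (hN : 1 ≤ N) (ha : a ∈ units N) :
    cjones N n w (root N a) = NB.cjR N n w (NB.eu N a) :=
  cjones_eq (NB.good_eu N a hN (mem_filter.1 ha).2) n w

lemma one_mem (hN : 1 ≤ N) : 1 ∈ units N := by
  rw [units, mem_filter, mem_range]
  exact ⟨by omega, Nat.coprime_one_left _⟩

end Bridge

/-- a Chebyshev inequality -/
lemma card_le {s : Finset ℕ} {f : ℕ → ℝ} {M t : ℝ} (hf : ∀ a ∈ s, 0 ≤ f a) (hs : ∑ a ∈ s, f a ≤ M)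
    {P : ℕ → Prop} [DecidablePred P] (hP : ∀ a ∈ s, P a → t ≤ f a) :
    ((s.filter P).card : ℝ) * t ≤ M := by
  calc ((s.filter P).card : ℝ) * t = ∑ a ∈ s.filter P, t := by rw [sum_const, nsmul_eq_mul]
    _ ≤ ∑ a ∈ s.filter P, f a := sum_le_sum fun a ha => hP a (mem_filter.1 ha).1 (mem_filter.1 ha).2
    _ ≤ ∑ a ∈ s, f a := sum_le_sum_of_subset_of_nonneg (filter_subset _ _) fun a ha _ => hf a ha
    _ ≤ M := hs

/-- the numbers `q` are all the primitive `N`-th roots of unity -/
lemma prim_iff {N : ℕ} (hN : 1 ≤ N) (q : ℂ) :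
    IsPrimitiveRoot q N ↔ ∃ a ∈ units N, root N a ^ 2 = q := by
  have hN0 : (N : ℂ) ≠ 0 := by
    have : N ≠ 0 := by omega
    exact_mod_cast this
  have e : ∀ a : ℕ, root N a ^ 2 = Complex.exp (2 * Real.pi * Complex.I * ((a : ℂ) / (N : ℂ))) := by
    intro a
    rw [root, ← Complex.exp_nat_mul]
    congr 1
    push_cast
    field_simp
  rw [Complex.isPrimitiveRoot_iff _ _ (by omega)]
  constructor
  · rintro ⟨i, hi, hc, rfl⟩
    rcases Nat.even_or_odd i with h | h
    · have hNo : Odd N := by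
        rcases Nat.even_or_odd N with h' | h'
        · exact absurd hc (Nat.not_coprime_of_dvd_of_dvd one_lt_two h.two_dvd h'.two_dvd)
        · exact h'
      refine ⟨i + N, ?_, ?_⟩
      · rw [units, mem_filter, mem_range]
        refine ⟨by omega, Nat.Coprime.mul_right ?_ ?_⟩
        · exact (h.add_odd hNo).coprime_two_right
        · simpa using hc
      · rw [e]
        have : (2 * Real.pi * Complex.I * (((i + N : ℕ) : ℂ) / (N : ℂ))) =
            2 * Real.pi * Complex.I * ((i : ℂ) / (N : ℂ)) + 2 * Real.pi * Complex.I := by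
          push_cast
          field_simp
        rw [this, Complex.exp_add, Complex.exp_two_pi_mul_I, mul_one]
    · refine ⟨i, ?_, e i⟩
      rw [units, mem_filter, mem_range]
      exact ⟨by omega, Nat.Coprime.mul_right h.coprime_two_right hc⟩
  · rintro ⟨a, ha, rfl⟩
    rw [units, mem_filter, mem_range] at ha
    obtain ⟨ha1, ha2⟩ := ha
    have ha3 : Nat.Coprime a N := ha2.coprime_dvd_right ⟨2, by ring⟩
    by_cases h : a < N
    · exact ⟨a, h, ha3, (e a).symm⟩
    · push Not at h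
      refine ⟨a - N, by omega, ?_, ?_⟩
      · rw [Nat.coprime_sub_self_left h]
        exact ha3
      · rw [e]
        have : (2 * Real.pi * Complex.I * ((a : ℂ) / (N : ℂ))) =
            2 * Real.pi * Complex.I * (((a - N : ℕ) : ℂ) / (N : ℂ)) + 2 * Real.pi * Complex.I := by
          push_cast [Nat.cast_sub h]
          field_simp
          ring
        rw [this, Complex.exp_add, Complex.exp_two_pi_mul_I, mul_one]

open Classical in
/-- **The growth of the Kashaev invariant at almost all Galois conjugates.**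
Let `L` be the closure of the braid word `w` with `c` letters on `n + 1` strands, let `N ≥ 1` and
let `J a` be the value of its `N`-coloured Jones polynomial at `q = exp (2 π i a / N)`, for the
`1 ≤ a < 2 N` coprime to `2 N`.
(0) These `q` are all the primitive `N`-th roots of unity.
(1) `∑ log⁺ |J a| ≤ 32 (n + c) N (1 + log N)²`.  For every `ε > 0` there are at most
`64 π (n + c) (1 + log N)² / ε` numbers `a` with `(2 π / N) log |J a| ≥ ε`.
(2) Let `L` be a knot, and let `N` be a prime power, or let `J 1` be different from zero. Then `J a`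
is different from zero for all `a` and `∑ |log |J a|| ≤ 64 (n + c) N (1 + log N)²`.  For every
`ε > 0` the inequality `(2 π / N) |log |J a|| < ε` holds for all `a` with at most
`128 π (n + c) (1 + log N)² / ε` exceptions. -/
theorem result (n : ℕ) (w : List (ℕ × Bool)) (N : ℕ) (hN : 1 ≤ N) :
    -- (0) the roots of unity
    (∀ q : ℂ, IsPrimitiveRoot q N ↔ ∃ a ∈ units N, root N a ^ 2 = q) ∧
    -- (1) upper bounds, for all links and all `N`
    (∑ a ∈ units N, max 0 (Real.log ‖cjones N n w (root N a)‖) ≤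
        32 * (n + w.length) * N * (1 + Real.log N) ^ 2 ∧
      ∀ ε : ℝ, 0 < ε →
        (((units N).filter fun a =>
          ε ≤ 2 * Real.pi / N * Real.log ‖cjones N n w (root N a)‖).card : ℝ) ≤
            64 * Real.pi * (n + w.length) * (1 + Real.log N) ^ 2 / ε) ∧
    -- (2) upper and lower bounds
    (IsKnot n w → IsPrimePow N ∨ kashaev n w N ≠ 0 →
      (∀ a ∈ units N, cjones N n w (root N a) ≠ 0) ∧
      ∑ a ∈ units N, |Real.log ‖cjones N n w (root N a)‖| ≤
        64 * (n + w.length) * N * (1 + Real.log N) ^ 2 ∧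
      ∀ ε : ℝ, 0 < ε →
        (((units N).filter fun a =>
          ε ≤ 2 * Real.pi / N * |Real.log ‖cjones N n w (root N a)‖|).card : ℝ) ≤
            128 * Real.pi * (n + w.length) * (1 + Real.log N) ^ 2 / ε) := by
  have hN0 : (0 : ℝ) < N := by exact_mod_cast hN
  have hpi := Real.pi_pos
  have hcount : ∀ {f : ℕ → ℝ} {M : ℝ}, (∀ a ∈ units N, 0 ≤ f a) → ∑ a ∈ units N, f a ≤ M →
      ∀ ε : ℝ, 0 < ε → ∀ P : ℕ → Prop, (∀ a ∈ units N, P a → ε ≤ 2 * Real.pi / N * f a) →
        (((units N).filter P).card : ℝ) ≤ 2 * Real.pi / N * M / ε := by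
    intro f M hf hs ε hε P hP
    rw [le_div_iff₀ hε]
    refine card_le (f := fun a => 2 * Real.pi / N * f a)
      (fun a ha => mul_nonneg (by positivity) (hf a ha)) ?_ hP
    rw [← mul_sum]
    exact mul_le_mul_of_nonneg_left hs (by positivity)
  refine ⟨prim_iff hN, ?_, ?_⟩
  · have h1 : ∑ a ∈ units N, max 0 (Real.log ‖cjones N n w (root N a)‖) ≤
        32 * (n + w.length) * N * (1 + Real.log N) ^ 2 := by
      refine le_trans (sum_le_sum fun a ha => ?_) (Pool.Agent.K6.H8.NB.sum_UU N n w.length hN)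
      have hU := Pool.Agent.K6.H8.NB.UU_nonneg N n w.length a hN
      refine max_le hU ?_
      rw [value_eq n w hN ha]
      by_cases h0 : Pool.Agent.K6.H8.NB.cjR N n w (Pool.Agent.K6.H8.NB.eu N a) = 0
      · rw [h0, norm_zero, Real.log_zero]
        exact hU
      · exact Pool.Agent.K6.H8.NB.log_le N n w a hN (mem_filter.1 ha).2 h0
    refine ⟨h1, fun ε hε => ?_⟩
    have h2 := hcount (f := fun a => max 0 (Real.log ‖cjones N n w (root N a)‖))
      (fun a _ => le_max_left 0 _) h1 ε hε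
      (fun a => ε ≤ 2 * Real.pi / N * Real.log ‖cjones N n w (root N a)‖)
      fun a _ h => h.trans (mul_le_mul_of_nonneg_left (le_max_right _ _) (by positivity))
    refine h2.trans (le_of_eq ?_)
    field_simp
    ring
  · intro hw h
    have h1 := value_eq n w hN (one_mem hN)
    have h3 : ∏ a ∈ units N, Pool.Agent.K6.H8.NB.cjR N n w (Pool.Agent.K6.H8.NB.eu N a) ≠ 0 := by
      rcases h with h | h
      · exact Pool.Agent.K6.H8.NB.prod_ne N n w h hw
      · refine Pool.Agent.K6.H8.NB.prod_ne_of N n w hN 1 (one_mem hN) ?_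
        rw [← h1]; exact h
    have h4 := (Pool.Agent.K6.H8.NB.height N n w hN h3).2
    have h5 : ∑ a ∈ units N, |Real.log ‖cjones N n w (root N a)‖| ≤
        64 * (n + w.length) * N * (1 + Real.log N) ^ 2 := by
      refine le_trans (le_of_eq (sum_congr rfl fun a ha => ?_)) h4
      rw [value_eq n w hN ha]
    refine ⟨fun a ha h0 => h3 (prod_eq_zero ha ?_), h5, fun ε hε => ?_⟩
    · rw [← value_eq n w hN ha]; exact h0
    · have h2 := hcount (f := fun a => |Real.log ‖cjones N n w (root N a)‖|)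
        (fun a _ => abs_nonneg _) h5 ε hε
        (fun a => ε ≤ 2 * Real.pi / N * |Real.log ‖cjones N n w (root N a)‖|) fun a _ h => h
      refine h2.trans (le_of_eq ?_)
      field_simp
      ring

end Pool.Agent.K6.H8.Var.ConjugateGrowth
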